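import Pool.Agent.J6H50.RF.Stm

/-!
# RF-03: the axioms `BASIC` in a structure
-/

set_option autoImplicit false
set_option maxHeartbeats 4000000

namespace Pool.Agent.J6H82.RF03

open Pool.Agent.J6H50.RF Pool.Agent.NPC

/-- a valuation with five given values -/
def vl {M : Type} (x y z u w : M) : ℕ → M
  | 0 => x
  | 1 => y
  | 2 => z
  | 3 => u
  | _ => w

theorem sat_neg {M : Type} (A : Str M) (φ : Fm) (v : ℕ → M) :
    (Fm.neg φ).Sat A v ↔ ¬ φ.Sat A v := Iff.rfl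

theorem sat_and {M : Type} (A : Str M) (φ ψ : Fm) (v : ℕ → M) :
    (Fm.and φ ψ).Sat A v ↔ φ.Sat A v ∧ ψ.Sat A v := by
  simp only [Fm.and, Fm.neg, Fm.Sat]
  tauto

theorem sat_or {M : Type} (A : Str M) (φ ψ : Fm) (v : ℕ → M) :
    (Fm.or φ ψ).Sat A v ↔ φ.Sat A v ∨ ψ.Sat A v := by
  simp only [Fm.or, Fm.neg, Fm.Sat]
  tauto

theorem sat_iff {M : Type} (A : Str M) (φ ψ : Fm) (v : ℕ → M) :
    (Fm.iff φ ψ).Sat A v ↔ (φ.Sat A v ↔ ψ.Sat A v) := by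
  unfold Fm.iff
  rw [sat_and]
  simp only [Fm.Sat]
  tauto

theorem all_basic {M : Type} (A : Str M) (v : ℕ → M) : (∀ φ ∈ basic, φ.Sat A v) ↔
    (List.map (fun φ : Fm => φ.Sat A v) basic).foldr (fun a b => a ∧ b) True := by
  induction basic with
  | nil => simp
  | cons a l ih => simp only [List.forall_mem_cons, List.map_cons, List.foldr_cons, ih]

/-- **RF-03.** -/
theorem m03 : S_bas := by
  intro M A
  constructor
  · intro H
    have H' : ∀ v : ℕ → M, ∀ φ ∈ basic, φ.Sat A v := fun v φ hφ => H φ hφ v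
    simp only [all_basic] at H'
    simp only [basic, two, List.map_cons, List.map_nil, List.foldr_cons, List.foldr_nil, and_true,
      sat_neg, sat_and, sat_or, sat_iff, Fm.Sat, Tm.val] at H'
    exact
      {
        b1 := fun x y => (H' (vl x y A.zero A.zero A.zero)).1
        b2 := fun x => (H' (vl x A.zero A.zero A.zero A.zero)).2.1
        b3 := fun x => (H' (vl x A.zero A.zero A.zero A.zero)).2.2.1
        b4 := fun x y => (H' (vl x y A.zero A.zero A.zero)).2.2.2.1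
        b5 := fun x => (H' (vl x A.zero A.zero A.zero A.zero)).2.2.2.2.1
        b6 := fun x y => (H' (vl x y A.zero A.zero A.zero)).2.2.2.2.2.1
        b7 := fun x y h h' => (H' (vl x y A.zero A.zero A.zero)).2.2.2.2.2.2.1 ⟨h, h'⟩
        b8 := fun x y z h h' => (H' (vl x y z A.zero A.zero)).2.2.2.2.2.2.2.1 ⟨h, h'⟩
        b9 := (H' (vl A.zero A.zero A.zero A.zero A.zero)).2.2.2.2.2.2.2.2.1
        b10 := fun x => (H' (vl x A.zero A.zero A.zero A.zero)).2.2.2.2.2.2.2.2.2.1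
        b11 := (H' (vl A.zero A.zero A.zero A.zero A.zero)).2.2.2.2.2.2.2.2.2.2.1
        b12 := fun x y => (H' (vl x y A.zero A.zero A.zero)).2.2.2.2.2.2.2.2.2.2.2.1
        b13 := fun x y => (H' (vl x y A.zero A.zero A.zero)).2.2.2.2.2.2.2.2.2.2.2.2.1
        b14 := fun y => (H' (vl A.zero y A.zero A.zero A.zero)).2.2.2.2.2.2.2.2.2.2.2.2.2.1
        b15 := fun x => (H' (vl x A.zero A.zero A.zero A.zero)).2.2.2.2.2.2.2.2.2.2.2.2.2.2.1
        b16 := fun x y => (H' (vl x y A.zero A.zero A.zero)).2.2.2.2.2.2.2.2.2.2.2.2.2.2.2.1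
        b17 := fun x y z => (H' (vl x y z A.zero A.zero)).2.2.2.2.2.2.2.2.2.2.2.2.2.2.2.2.1
        b18 := fun x y u w => (H' (vl x y A.zero u w)).2.2.2.2.2.2.2.2.2.2.2.2.2.2.2.2.2.1
        b19 := fun x y => (H' (vl x y A.zero A.zero A.zero)).2.2.2.2.2.2.2.2.2.2.2.2.2.2.2.2.2.2.1
        b20 := fun x y h h' => (H' (vl x y A.zero A.zero A.zero)).2.2.2.2.2.2.2.2.2.2.2.2.2.2.2.2.2.2.2.1 ⟨h, h'⟩
        b21 := fun x y => (H' (vl x y A.zero A.zero A.zero)).2.2.2.2.2.2.2.2.2.2.2.2.2.2.2.2.2.2.2.2.1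
        b22 := fun x => (H' (vl x A.zero A.zero A.zero A.zero)).2.2.2.2.2.2.2.2.2.2.2.2.2.2.2.2.2.2.2.2.2.1
        b23 := fun x y => (H' (vl x y A.zero A.zero A.zero)).2.2.2.2.2.2.2.2.2.2.2.2.2.2.2.2.2.2.2.2.2.2.1
        b24 := fun x y z => (H' (vl x y z A.zero A.zero)).2.2.2.2.2.2.2.2.2.2.2.2.2.2.2.2.2.2.2.2.2.2.2.1
        b25 := fun x y z => (H' (vl x y z A.zero A.zero)).2.2.2.2.2.2.2.2.2.2.2.2.2.2.2.2.2.2.2.2.2.2.2.2.1
        b26 := fun x => (H' (vl x A.zero A.zero A.zero A.zero)).2.2.2.2.2.2.2.2.2.2.2.2.2.2.2.2.2.2.2.2.2.2.2.2.2.1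
        b27 := fun x y => (H' (vl x y A.zero A.zero A.zero)).2.2.2.2.2.2.2.2.2.2.2.2.2.2.2.2.2.2.2.2.2.2.2.2.2.2.1
        b28 := fun x y => (H' (vl x y A.zero A.zero A.zero)).2.2.2.2.2.2.2.2.2.2.2.2.2.2.2.2.2.2.2.2.2.2.2.2.2.2.2.1
        b29 := fun x y z => (H' (vl x y z A.zero A.zero)).2.2.2.2.2.2.2.2.2.2.2.2.2.2.2.2.2.2.2.2.2.2.2.2.2.2.2.2.1
        b30 := fun x y z => (H' (vl x y z A.zero A.zero)).2.2.2.2.2.2.2.2.2.2.2.2.2.2.2.2.2.2.2.2.2.2.2.2.2.2.2.2.2.1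
        b31 := fun x => (H' (vl x A.zero A.zero A.zero A.zero)).2.2.2.2.2.2.2.2.2.2.2.2.2.2.2.2.2.2.2.2.2.2.2.2.2.2.2.2.2.2.1
        b32 := fun x y => (H' (vl x y A.zero A.zero A.zero)).2.2.2.2.2.2.2.2.2.2.2.2.2.2.2.2.2.2.2.2.2.2.2.2.2.2.2.2.2.2.2
      }
  · intro B φ hφ v
    have H' : ∀ φ ∈ basic, φ.Sat A v := by
      rw [all_basic]
      simp only [basic, two, List.map_cons, List.map_nil, List.foldr_cons, List.foldr_nil, and_true,
        sat_neg, sat_and, sat_or, sat_iff, Fm.Sat, Tm.val]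
      exact ⟨B.b1 (v 0) (v 1),
      B.b2 (v 0),
      B.b3 (v 0),
      B.b4 (v 0) (v 1),
      B.b5 (v 0),
      B.b6 (v 0) (v 1),
      fun h => B.b7 (v 0) (v 1) h.1 h.2,
      fun h => B.b8 (v 0) (v 1) (v 2) h.1 h.2,
      B.b9,
      B.b10 (v 0),
      B.b11,
      B.b12 (v 0) (v 1),
      B.b13 (v 0) (v 1),
      B.b14 (v 1),
      B.b15 (v 0),
      B.b16 (v 0) (v 1),
      B.b17 (v 0) (v 1) (v 2),
      B.b18 (v 0) (v 1) (v 3) (v 4),
      B.b19 (v 0) (v 1),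
      fun h => B.b20 (v 0) (v 1) h.1 h.2,
      B.b21 (v 0) (v 1),
      B.b22 (v 0),
      B.b23 (v 0) (v 1),
      B.b24 (v 0) (v 1) (v 2),
      B.b25 (v 0) (v 1) (v 2),
      B.b26 (v 0),
      B.b27 (v 0) (v 1),
      B.b28 (v 0) (v 1),
      B.b29 (v 0) (v 1) (v 2),
      B.b30 (v 0) (v 1) (v 2),
      B.b31 (v 0),
      B.b32 (v 0) (v 1)⟩
    exact H' φ hφ

end Pool.Agent.J6H82.RF03
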